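import Pool.Agent.helper40.SU.SpecC

/-!
# Row su:FIN (the exceptional set has density zero)
-/

set_option autoImplicit false

open Finset

namespace Pool.Agent.SU

theorem FIN_mem {p : ℕ → Prop} {i : DecidablePred p} {s : Finset ℕ} {a : ℕ} :
    a ∈ @Finset.filter ℕ p i s ↔ a ∈ s ∧ p a := Finset.mem_filter

theorem FIN_fib (T I : Finset ℕ) (g : ℕ → ℕ) (B : ℝ) (hg : ∀ n ∈ T, g n ∈ I)
    (hB : ∀ i ∈ I, ((T.filter fun n => g n = i).card : ℝ) ≤ B) : (T.card : ℝ) ≤ I.card * B := by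
  rw [Finset.card_eq_sum_card_fiberwise (f := g) (t := I) hg]
  push_cast
  refine (Finset.sum_le_sum hB).trans (le_of_eq ?_)
  rw [Finset.sum_const, nsmul_eq_mul]

theorem FIN_cnt (M L r : ℕ) :
    ((range (M * L)).filter fun n => n % M = r % M).card ≤ L := by
  have h1 : ((range (M * L)).filter fun n => n % M = r % M) ⊆
      (range L).image fun i => r % M + M * i := by
    intro n hn
    obtain ⟨h2, h3⟩ := Finset.mem_filter.1 hn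
    rw [Finset.mem_range] at h2
    rw [Finset.mem_image]
    refine ⟨n / M, ?_, ?_⟩
    · rw [Finset.mem_range]
      exact Nat.div_lt_of_lt_mul h2
    · rw [← h3]
      exact Nat.mod_add_div n M
  refine (Finset.card_le_card h1).trans (Finset.card_image_le.trans ?_)
  rw [Finset.card_range]

theorem FIN_q0 (Z : ℕ) : 0 < q0 Z :=
  Finset.prod_pos fun _ hp => (Finset.mem_filter.1 hp).2.pos

/-- the bound for one class modulo `8 q0` -/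
theorem FIN_A (hLOC : LOC_stmt) (δ : ℝ) (Z r : ℕ) (hZ : 7 ≤ Z) (hr : r % 8 = 7)
    (hP : ∀ m q u₀ k₀ : ℕ, Dat Z m q u₀ k₀ → ∀ s₀ w₀ : ℕ, w₀.Coprime (2 * q) → ∃ N₀ : ℕ, ∀ N ≥ N₀,
      ∀ T : Finset ℕ, (∀ n ∈ T, n ∈ Ioc N ⌊(1 + 8 * δ / 5) * (N : ℝ)⌋₊ ∧
        n ≡ Df m u₀ k₀ * s₀ ^ 2 + 4 * w₀ ^ 2 [MOD 32 * q] ∧ ¬ Adm n) →
      (T.card : ℝ) ≤ 10 * δ ^ 2 * N / (32 * q)) :
    ∃ N₀ : ℕ, ∀ N ≥ N₀, ∀ T : Finset ℕ,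
      (∀ n ∈ T, n ∈ Ioc N ⌊(1 + 8 * δ / 5) * (N : ℝ)⌋₊ ∧ n ≡ r [MOD 8 * q0 Z] ∧ ¬ Adm n) →
      (T.card : ℝ) ≤ 10 * δ ^ 2 * N / (8 * q0 Z) := by
  obtain ⟨m, q, u₀, k₀, hD, ⟨q', hq'⟩, hcl⟩ := hLOC Z r hZ hr
  have hq0 := FIN_q0 Z
  have hq1 : 0 < q := hD.q_odd.pos
  have hq'1 : 0 < q' := by
    rcases Nat.eq_zero_or_pos q' with h | h
    · rw [h, mul_zero] at hq'
      omega
    · exact h
  have hex : ∀ n₀ : ℕ, ∃ N₀ : ℕ, n₀ ≡ r [MOD 8 * q0 Z] → ∀ N ≥ N₀, ∀ T : Finset ℕ,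
      (∀ n ∈ T, n ∈ Ioc N ⌊(1 + 8 * δ / 5) * (N : ℝ)⌋₊ ∧ n ≡ n₀ [MOD 32 * q] ∧ ¬ Adm n) →
      (T.card : ℝ) ≤ 10 * δ ^ 2 * N / (32 * q) := by
    intro n₀
    by_cases h : n₀ ≡ r [MOD 8 * q0 Z]
    · obtain ⟨s₀, w₀, hw, hc⟩ := hcl n₀ h
      obtain ⟨N₀, hN₀⟩ := hP m q u₀ k₀ hD s₀ w₀ hw
      refine ⟨N₀, fun _ N hN T hT => hN₀ N hN T fun n hn => ?_⟩
      obtain ⟨h1, h2, h3⟩ := hT n hn
      exact ⟨h1, h2.trans hc.symm, h3⟩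
    · exact ⟨0, fun h' => absurd h' h⟩
  choose N₀ hN₀ using hex
  refine ⟨(range (32 * q)).sup N₀, fun N hN T hT => ?_⟩
  have h32 : 32 * q = (8 * q0 Z) * (4 * q') := by
    rw [hq']
    ring
  set I : Finset ℕ := (range (8 * q0 Z * (4 * q'))).filter fun n => n % (8 * q0 Z) = r % (8 * q0 Z)
    with hI
  have h1 := FIN_fib T I (fun n => n % (32 * q)) (10 * δ ^ 2 * N / (32 * q)) (by
    intro n hn
    obtain ⟨_, h2, _⟩ := hT n hn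
    refine Finset.mem_filter.2 ⟨?_, ?_⟩
    · rw [Finset.mem_range, ← h32]
      exact Nat.mod_lt _ (by omega)
    · show n % (32 * q) % (8 * q0 Z) = r % (8 * q0 Z)
      rw [Nat.mod_mod_of_dvd n (Dvd.intro _ h32.symm)]
      exact h2) (by
    intro n₀ hn₀
    obtain ⟨h2, h3⟩ := Finset.mem_filter.1 hn₀
    rw [← h32] at h2
    refine hN₀ n₀ h3 N ((Finset.le_sup h2).trans hN) _ fun n hn => ?_
    obtain ⟨h4, h5⟩ := Finset.mem_filter.1 hn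
    obtain ⟨h6, _, h7⟩ := hT n h4
    refine ⟨h6, ?_, h7⟩
    show n % (32 * q) = n₀ % (32 * q)
    rw [← h5]
    exact (Nat.mod_mod n (32 * q)).symm)
  have h2 : (I.card : ℝ) ≤ 4 * q' := by
    exact_mod_cast FIN_cnt (8 * q0 Z) (4 * q') r
  have hB0 : 0 ≤ 10 * δ ^ 2 * (N : ℝ) / (32 * q) := by positivity
  refine h1.trans ((mul_le_mul_of_nonneg_right h2 hB0).trans (le_of_eq ?_))
  have hqR : (q : ℝ) = q0 Z * q' := by exact_mod_cast hq'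
  have hq0R : (0 : ℝ) < q0 Z := by exact_mod_cast hq0
  have hq'R : (0 : ℝ) < q' := by exact_mod_cast hq'1
  rw [hqR]
  field_simp
  ring

/-- the bound for `n % 8 = 7` -/
theorem FIN_B (hLOC : LOC_stmt) (δ : ℝ) (Z : ℕ) (hZ : 7 ≤ Z)
    (hP : ∀ m q u₀ k₀ : ℕ, Dat Z m q u₀ k₀ → ∀ s₀ w₀ : ℕ, w₀.Coprime (2 * q) → ∃ N₀ : ℕ, ∀ N ≥ N₀,
      ∀ T : Finset ℕ, (∀ n ∈ T, n ∈ Ioc N ⌊(1 + 8 * δ / 5) * (N : ℝ)⌋₊ ∧
        n ≡ Df m u₀ k₀ * s₀ ^ 2 + 4 * w₀ ^ 2 [MOD 32 * q] ∧ ¬ Adm n) →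
      (T.card : ℝ) ≤ 10 * δ ^ 2 * N / (32 * q)) :
    ∃ N₀ : ℕ, ∀ N ≥ N₀, ∀ T : Finset ℕ,
      (∀ n ∈ T, n ∈ Ioc N ⌊(1 + 8 * δ / 5) * (N : ℝ)⌋₊ ∧ n % 8 = 7 ∧ ¬ Adm n) →
      (T.card : ℝ) ≤ 10 / 8 * δ ^ 2 * N := by
  have hq0 := FIN_q0 Z
  have hex : ∀ r : ℕ, ∃ N₀ : ℕ, r % 8 = 7 → ∀ N ≥ N₀, ∀ T : Finset ℕ,
      (∀ n ∈ T, n ∈ Ioc N ⌊(1 + 8 * δ / 5) * (N : ℝ)⌋₊ ∧ n ≡ r [MOD 8 * q0 Z] ∧ ¬ Adm n) →
      (T.card : ℝ) ≤ 10 * δ ^ 2 * N / (8 * q0 Z) := by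
    intro r
    by_cases h : r % 8 = 7
    · obtain ⟨N₀, hN₀⟩ := FIN_A hLOC δ Z r hZ h hP
      exact ⟨N₀, fun _ => hN₀⟩
    · exact ⟨0, fun h' => absurd h' h⟩
  choose N₀ hN₀ using hex
  refine ⟨(range (8 * q0 Z)).sup N₀, fun N hN T hT => ?_⟩
  set I : Finset ℕ := (range (8 * q0 Z)).filter fun n => n % 8 = 7 % 8 with hI
  have h1 := FIN_fib T I (fun n => n % (8 * q0 Z)) (10 * δ ^ 2 * N / (8 * q0 Z)) (by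
    intro n hn
    obtain ⟨_, h2, _⟩ := hT n hn
    refine Finset.mem_filter.2 ⟨?_, ?_⟩
    · rw [Finset.mem_range]
      exact Nat.mod_lt _ (by omega)
    · show n % (8 * q0 Z) % 8 = 7 % 8
      rw [Nat.mod_mod_of_dvd n (Dvd.intro _ rfl)]
      exact h2) (by
    intro r hr
    obtain ⟨h2, h3⟩ := Finset.mem_filter.1 hr
    refine hN₀ r h3 N ((Finset.le_sup h2).trans hN) _ fun n hn => ?_
    obtain ⟨h4, h5⟩ := Finset.mem_filter.1 hn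
    obtain ⟨h6, _, h7⟩ := hT n h4
    refine ⟨h6, ?_, h7⟩
    show n % (8 * q0 Z) = r % (8 * q0 Z)
    rw [← h5]
    exact (Nat.mod_mod n (8 * q0 Z)).symm)
  have h2 : (I.card : ℝ) ≤ q0 Z := by
    exact_mod_cast FIN_cnt 8 (q0 Z) 7
  have hB0 : 0 ≤ 10 * δ ^ 2 * (N : ℝ) / (8 * q0 Z) := by positivity
  refine h1.trans ((mul_le_mul_of_nonneg_right h2 hB0).trans (le_of_eq ?_))
  have hq0R : (0 : ℝ) < q0 Z := by exact_mod_cast hq0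
  field_simp

theorem FIN_C (hLOC : LOC_stmt) (hPRO : PRO_stmt) (hCOV : COV_stmt) (ε : ℝ) (hε : 0 < ε) :
    ∃ C₁ : ℝ, ∀ (X : ℕ) (T : Finset ℕ), (∀ n ∈ T, n < X ∧ n % 8 = 7 ∧ ¬ Adm n) →
      (T.card : ℝ) ≤ C₁ + ε / 2 * X := by
  obtain ⟨δ, hδ0, hδ1, hδ2⟩ : ∃ δ : ℝ, 0 < δ ∧ δ ≤ 1 / 100 ∧ δ ≤ ε / 8 :=
    ⟨min (ε / 8) (1 / 100), by positivity, min_le_right _ _, min_le_left _ _⟩
  obtain ⟨Z₀, hZ₀⟩ := hPRO δ hδ0 hδ1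
  have hP : ∀ m q u₀ k₀ : ℕ, Dat (max Z₀ 7) m q u₀ k₀ → ∀ s₀ w₀ : ℕ, w₀.Coprime (2 * q) →
      ∃ N₀ : ℕ, ∀ N ≥ N₀, ∀ T : Finset ℕ, (∀ n ∈ T, n ∈ Ioc N ⌊(1 + 8 * δ / 5) * (N : ℝ)⌋₊ ∧
        n ≡ Df m u₀ k₀ * s₀ ^ 2 + 4 * w₀ ^ 2 [MOD 32 * q] ∧ ¬ Adm n) →
      (T.card : ℝ) ≤ 10 * δ ^ 2 * N / (32 * q) := by
    intro m q u₀ k₀ hD s₀ w₀ hw
    obtain ⟨N₀, hN₀⟩ := hZ₀ (max Z₀ 7) (le_max_left _ _) m q u₀ k₀ hD s₀ w₀ hw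
    refine ⟨N₀, fun N hN T hT => le_trans ?_ (hN₀ N hN)⟩
    rw [Nat.cast_le]
    refine Finset.card_le_card fun n hn => ?_
    exact FIN_mem.2 (hT n hn)
  obtain ⟨N₀, hN₀⟩ := FIN_B hLOC δ (max Z₀ 7) (le_max_right _ _) hP
  obtain ⟨C₁, hC₁⟩ := hCOV (fun n => n % 8 = 7 ∧ ¬ Adm n) (1 + 8 * δ / 5) (10 / 8 * δ ^ 2)
    (by linarith) (by linarith) (by positivity) ⟨N₀, fun N hN => hN₀ N hN _ fun n hn =>
      FIN_mem.1 hn⟩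
  refine ⟨C₁, fun X T hT => ?_⟩
  have h1 : (T.card : ℝ) ≤ C₁ + 4 * (10 / 8 * δ ^ 2) / (1 + 8 * δ / 5 - 1) * X := by
    refine le_trans ?_ (hC₁ X)
    rw [Nat.cast_le]
    refine Finset.card_le_card fun n hn => ?_
    obtain ⟨h2, h3⟩ := hT n hn
    exact FIN_mem.2 ⟨Finset.mem_range.2 (by omega), h3⟩
  have h2 : 4 * (10 / 8 * δ ^ 2) / (1 + 8 * δ / 5 - 1) = 25 / 8 * δ := by
    rw [add_sub_cancel_left, div_eq_iff (by positivity)]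
    ring
  rw [h2] at h1
  have h3 : 25 / 8 * δ ≤ ε / 2 := by linarith
  have h4 := mul_le_mul_of_nonneg_right h3 (Nat.cast_nonneg X : (0 : ℝ) ≤ (X : ℝ))
  linarith

theorem FIN (hLOC : LOC_stmt) (hPRO : PRO_stmt) (hCOV : COV_stmt) : FIN_stmt := by
  unfold FIN_stmt
  rw [Metric.tendsto_atTop]
  intro ε hε
  obtain ⟨C₁, hC₁⟩ := FIN_C hLOC hPRO hCOV ε hε
  obtain ⟨X₀, hX₀⟩ := exists_nat_gt (|C₁| * 2 / ε)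
  refine ⟨X₀ + 1, fun X hX => ?_⟩
  have hX1 : (0 : ℝ) < X := by exact_mod_cast (by omega : 0 < X)
  have hXX : (X₀ : ℝ) ≤ X := by exact_mod_cast (by omega : X₀ ≤ X)
  rw [Real.dist_eq, sub_zero, abs_of_nonneg (by positivity), div_lt_iff₀ hX1]
  refine lt_of_le_of_lt (hC₁ X _ fun n hn => ?_) ?_
  · have h1 := FIN_mem.1 hn
    exact ⟨Finset.mem_range.1 h1.1, h1.2⟩
  · have h1 : |C₁| * 2 / ε < X := lt_of_lt_of_le hX₀ hXX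
    rw [div_lt_iff₀ hε] at h1
    have h2 := le_abs_self C₁
    linarith

end Pool.Agent.SU
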