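import Pool.Agent.helper40.SU.SpecB

/-!
# Row su:GC3 (moments of the gcd over a family)
-/

set_option autoImplicit false

open Finset

namespace Pool.Agent.SU

/-- the general bound with the exponent `a` -/
theorem GC3_gen (c₀ C₀ : ℝ) (q D₀ Γ K : ℕ) (S : Finset ℕ) (hS : Fam c₀ C₀ q D₀ Γ K S) (j : ℕ)
    (hj1 : 1 ≤ j) (hjK : j ≤ K) (hjq : j.Coprime (2 * q)) (a : ℝ) :
    ∑ D ∈ S, ((D.gcd j : ℕ) : ℝ) ^ a ≤
      2 * (K : ℝ) ^ 2 * ∏ p ∈ j.primeFactors, (1 + 4 * (p : ℝ) ^ (a - 1)) := by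
  have hj0 : j ≠ 0 := by omega
  set P : Finset ℕ := j.primeFactors with hP
  have hprime : ∀ T ∈ P.powerset, ∀ p ∈ T, p.Prime := fun T hT p hp =>
    Nat.prime_of_mem_primeFactors (mem_powerset.1 hT hp)
  -- the divisor attached to a set of primes
  have hdvd : ∀ T ∈ P.powerset, (∏ p ∈ T, p) ∣ j := fun T hT =>
    (Finset.prod_dvd_prod_of_subset T P (fun p => p) (mem_powerset.1 hT)).trans
      (Nat.prod_primeFactors_dvd j)
  have hpos : ∀ T ∈ P.powerset, 0 < ∏ p ∈ T, p := fun T hT =>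
    Finset.prod_pos fun p hp => (hprime T hT p hp).pos
  have hpf : ∀ T ∈ P.powerset, (∏ p ∈ T, p).primeFactors = T := fun T hT =>
    Nat.primeFactors_prod (hprime T hT)
  have hsqf : ∀ T ∈ P.powerset, Squarefree (∏ p ∈ T, p) := by
    intro T hT
    refine Finset.squarefree_prod_of_pairwise_isCoprime ?_ ?_
    · intro p hp p' hp' hne
      exact Nat.coprime_iff_isRelPrime.1
        ((Nat.coprime_primes (hprime T hT p hp) (hprime T hT p' hp')).2 hne)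
    · intro p hp
      exact (hprime T hT p hp).squarefree
  -- each gcd is one of the terms
  have h1 : ∀ D ∈ S, ((D.gcd j : ℕ) : ℝ) ^ a ≤
      ∑ T ∈ P.powerset, if (∏ p ∈ T, p) ∣ D then ((∏ p ∈ T, p : ℕ) : ℝ) ^ a else 0 := by
    intro D hD
    have hDsq : Squarefree D := hS.sqf D hD
    have hg : Squarefree (D.gcd j) := hDsq.squarefree_of_dvd (Nat.gcd_dvd_left D j)
    have hT : (D.gcd j).primeFactors ∈ P.powerset :=
      mem_powerset.2 (Nat.primeFactors_mono (Nat.gcd_dvd_right D j) hj0)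
    have hprod : ∏ p ∈ (D.gcd j).primeFactors, p = D.gcd j :=
      Nat.prod_primeFactors_of_squarefree hg
    have h2 := Finset.single_le_sum (s := P.powerset)
      (f := fun T => if (∏ p ∈ T, p) ∣ D then ((∏ p ∈ T, p : ℕ) : ℝ) ^ a else 0)
      (fun T _ => by
        show 0 ≤ if (∏ p ∈ T, p) ∣ D then ((∏ p ∈ T, p : ℕ) : ℝ) ^ a else 0
        split_ifs
        · exact Real.rpow_nonneg (Nat.cast_nonneg _) _
        · exact le_refl _) hT
    refine le_trans (le_of_eq ?_) h2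
    show ((D.gcd j : ℕ) : ℝ) ^ a = if (∏ p ∈ (D.gcd j).primeFactors, p) ∣ D then
      ((∏ p ∈ (D.gcd j).primeFactors, p : ℕ) : ℝ) ^ a else 0
    rw [hprod, if_pos (Nat.gcd_dvd_left D j)]
  refine (Finset.sum_le_sum h1).trans ?_
  rw [Finset.sum_comm, Finset.prod_one_add, Finset.mul_sum]
  refine Finset.sum_le_sum fun T hT => ?_
  have hd0 := hpos T hT
  have hd0' : (0 : ℝ) < ((∏ p ∈ T, p : ℕ) : ℝ) := by exact_mod_cast hd0
  have hdK : ((∏ p ∈ T, p : ℕ) : ℝ) ≤ K := by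
    have h2 : ∏ p ∈ T, p ≤ K := (Nat.le_of_dvd hj1 (hdvd T hT)).trans hjK
    exact_mod_cast h2
  have h3 := hS.dvd (∏ p ∈ T, p) (hsqf T hT) (Nat.Coprime.of_dvd_left (hdvd T hT) hjq)
  have h4 : om (∏ p ∈ T, p) = T.card := by
    unfold om
    rw [hpf T hT]
  rw [h4] at h3
  have h5 : ∑ D ∈ S, (if (∏ p ∈ T, p) ∣ D then ((∏ p ∈ T, p : ℕ) : ℝ) ^ a else 0) =
      ((S.filter fun D => (∏ p ∈ T, p) ∣ D).card : ℝ) * ((∏ p ∈ T, p : ℕ) : ℝ) ^ a := by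
    rw [← Finset.sum_filter, Finset.sum_const, nsmul_eq_mul]
  rw [h5]
  have hK0 : (0 : ℝ) ≤ K := Nat.cast_nonneg _
  have h6 : (K : ℝ) ^ 2 / ((∏ p ∈ T, p : ℕ) : ℝ) + K ≤ 2 * ((K : ℝ) ^ 2 / ((∏ p ∈ T, p : ℕ) : ℝ)) := by
    have h7 : (K : ℝ) ≤ (K : ℝ) ^ 2 / ((∏ p ∈ T, p : ℕ) : ℝ) := by
      rw [le_div_iff₀ hd0']
      nlinarith
    linarith
  have h8 : ∏ p ∈ T, (4 * (p : ℝ) ^ (a - 1)) = 4 ^ T.card * ((∏ p ∈ T, p : ℕ) : ℝ) ^ (a - 1) := by
    rw [Finset.prod_mul_distrib, Finset.prod_const]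
    congr 1
    rw [Nat.cast_prod, Real.finsetProd_rpow]
    intro p _
    exact Nat.cast_nonneg p
  rw [h8]
  have h9 : ((∏ p ∈ T, p : ℕ) : ℝ) ^ a = ((∏ p ∈ T, p : ℕ) : ℝ) ^ (a - 1) * ((∏ p ∈ T, p : ℕ) : ℝ) := by
    rw [← Real.rpow_add_one hd0'.ne']
    congr 1
    ring
  have h10 : (0 : ℝ) ≤ ((∏ p ∈ T, p : ℕ) : ℝ) ^ (a - 1) := Real.rpow_nonneg hd0'.le _
  calc ((S.filter fun D => (∏ p ∈ T, p) ∣ D).card : ℝ) * ((∏ p ∈ T, p : ℕ) : ℝ) ^ a
      ≤ (4 ^ T.card * (2 * ((K : ℝ) ^ 2 / ((∏ p ∈ T, p : ℕ) : ℝ)))) *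
          ((∏ p ∈ T, p : ℕ) : ℝ) ^ a := by
        refine mul_le_mul_of_nonneg_right (h3.trans ?_) (Real.rpow_nonneg hd0'.le _)
        exact mul_le_mul_of_nonneg_left h6 (by positivity)
    _ = 2 * (K : ℝ) ^ 2 * (4 ^ T.card * ((∏ p ∈ T, p : ℕ) : ℝ) ^ (a - 1)) := by
        rw [h9]
        field_simp

theorem GC3 : GC3_stmt := by
  intro c₀ C₀ q D₀ Γ K S hSm hS j hj1 hjK hjq
  have hj0 : j ≠ 0 := by omega
  have hbig : ∀ p ∈ j.primeFactors, p.Prime ∧ 256 < p := by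
    intro p hp
    have hpp := Nat.prime_of_mem_primeFactors hp
    refine ⟨hpp, ?_⟩
    by_contra hcon
    have h1 := hSm p hpp (not_lt.1 hcon)
    have h2 : p ∣ Nat.gcd j (2 * q) := Nat.dvd_gcd (Nat.dvd_of_mem_primeFactors hp) h1
    rw [hjq] at h2
    exact hpp.one_lt.ne' (Nat.dvd_one.1 h2)
  have hK2 : (0 : ℝ) ≤ 2 * (K : ℝ) ^ 2 := by positivity
  constructor
  · have h1 : ∀ D ∈ S, gw D j ^ 2 = ((D.gcd j : ℕ) : ℝ) ^ (3 / 2 : ℝ) := by
      intro D _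
      unfold gw
      rw [← Real.rpow_natCast, ← Real.rpow_mul (Nat.cast_nonneg _)]
      congr 1
      norm_num
    rw [Finset.sum_congr rfl h1]
    refine (GC3_gen c₀ C₀ q D₀ Γ K S hS j hj1 hjK hjq (3 / 2)).trans ?_
    rw [mul_assoc (2 * (K : ℝ) ^ 2)]
    refine mul_le_mul_of_nonneg_left ?_ hK2
    have h2 : ∏ p ∈ j.primeFactors, (1 + 4 * (p : ℝ) ^ ((3 / 2 : ℝ) - 1)) ≤
        ∏ p ∈ j.primeFactors, (5 * √(p : ℝ)) := by
      refine Finset.prod_le_prod (fun p _ => by positivity) fun p hp => ?_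
      have hp1 : (1 : ℝ) ≤ √(p : ℝ) := by
        rw [Real.one_le_sqrt]
        exact_mod_cast (hbig p hp).1.one_lt.le
      have h3 : (p : ℝ) ^ ((3 / 2 : ℝ) - 1) = √(p : ℝ) := by
        rw [Real.sqrt_eq_rpow]
        congr 1
        norm_num
      rw [h3]
      linarith
    refine h2.trans ?_
    rw [Finset.prod_mul_distrib, Finset.prod_const]
    refine mul_le_mul_of_nonneg_left ?_ (by positivity)
    have h4 : ∏ p ∈ j.primeFactors, √(p : ℝ) = √((∏ p ∈ j.primeFactors, p : ℕ) : ℝ) := by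
      rw [Nat.cast_prod, Real.sqrt_eq_rpow, ← Real.finsetProd_rpow]
      · refine Finset.prod_congr rfl fun p _ => ?_
        rw [Real.sqrt_eq_rpow]
      · intro p _
        exact Nat.cast_nonneg p
    rw [h4]
    refine Real.sqrt_le_sqrt ?_
    exact_mod_cast Nat.le_of_dvd hj1 (Nat.prod_primeFactors_dvd j)
  · unfold gw
    refine (GC3_gen c₀ C₀ q D₀ Γ K S hS j hj1 hjK hjq (3 / 4)).trans ?_
    refine mul_le_mul_of_nonneg_left ?_ hK2
    have h2 : ∏ p ∈ j.primeFactors, (1 + 4 * (p : ℝ) ^ ((3 / 4 : ℝ) - 1)) ≤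
        ∏ _p ∈ j.primeFactors, (2 : ℝ) := by
      refine Finset.prod_le_prod (fun p _ => by positivity) fun p hp => ?_
      have hp1 : (256 : ℝ) ≤ (p : ℝ) := by exact_mod_cast (hbig p hp).2.le
      have h3 : (4 : ℝ) ≤ (p : ℝ) ^ (1 / 4 : ℝ) := by
        have h4 : (256 : ℝ) ^ (1 / 4 : ℝ) = 4 := by
          rw [show (256 : ℝ) = (4 : ℝ) ^ (4 : ℝ) by norm_num, ← Real.rpow_mul (by norm_num : (0 : ℝ) ≤ 4)]
          norm_num
        have h5 := Real.rpow_le_rpow (by norm_num : (0 : ℝ) ≤ 256) hp1 (by norm_num : (0 : ℝ) ≤ 1 / 4)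
        rw [h4] at h5
        exact h5
      have h5 : (p : ℝ) ^ ((3 / 4 : ℝ) - 1) = ((p : ℝ) ^ (1 / 4 : ℝ))⁻¹ := by
        rw [← Real.rpow_neg (Nat.cast_nonneg p : (0 : ℝ) ≤ (p : ℝ))]
        congr 1
        norm_num
      have h6 : 4 * ((p : ℝ) ^ (1 / 4 : ℝ))⁻¹ ≤ 1 := by
        rw [← div_eq_mul_inv, div_le_one (by linarith)]
        exact h3
      rw [h5]
      linarith
    refine h2.trans (le_of_eq ?_)
    rw [Finset.prod_const]
    rfl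

end Pool.Agent.SU
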