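import Pool.Agent.helper40.SU.SpecA

/-!
# Row su:NRC (quadratic character of the quadratic extension)
-/

set_option autoImplicit false

open Finset

namespace Pool.Agent.SU

theorem NRC_val (F : Type) [Field F] [Fintype F] [DecidableEq F] (a : F) :
    quadraticChar F a ∈ ({0, 1, -1} : Set ℤ) := by
  by_cases ha : a = 0
  · left
    rw [ha]
    exact quadraticChar_zero
  · right
    rcases quadraticChar_dichotomy ha with h | h
    · left
      exact h
    · right
      exact h

theorem NRC : NRC_stmt := by
  intro p hpf K _ _ _ _ hp2 hK z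
  have hp : p.Prime := hpf.out
  have hcard : Nat.card K = p ^ 2 := by rw [Nat.card_eq_fintype_card, hK]
  have hcardp : Nat.card (ZMod p) = p := by rw [Nat.card_eq_fintype_card, ZMod.card]
  have hchar : CharP K p := charP_of_injective_algebraMap (algebraMap (ZMod p) K).injective p
  have hrK : ringChar K ≠ 2 := by
    rw [ringChar.eq K p]
    exact hp2
  have hrp : ringChar (ZMod p) ≠ 2 := by
    rw [ZMod.ringChar_zmod_n]
    exact hp2
  obtain ⟨k, hk⟩ : ∃ k, p = 2 * k + 1 := by
    rcases hp.eq_two_or_odd' with h | h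
    · exact absurd h hp2
    · exact h
  have hk1 : 1 ≤ k := by
    have := hp.two_le
    omega
  have hnorm : algebraMap (ZMod p) K (Algebra.norm (ZMod p) z) = z ^ (p + 1) := by
    rw [FiniteField.algebraMap_norm_eq_pow, hcard, hcardp]
    congr 1
    have h1 : p ^ 2 - 1 = (p + 1) * (p - 1) := by
      have h2 := Nat.sq_sub_sq p 1
      rw [one_pow] at h2
      exact h2
    rw [h1]
    exact Nat.mul_div_cancel _ (by omega)
  refine ⟨Algebra.norm (ZMod p) z, hnorm, ?_⟩
  apply Int.cast_injOn_of_ringChar_ne_two hrK (NRC_val K z) (NRC_val (ZMod p) _)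
  rw [quadraticChar_eq_pow_of_char_ne_two' hrK z, hK]
  have h3 := congrArg (algebraMap (ZMod p) K)
    (quadraticChar_eq_pow_of_char_ne_two' hrp (Algebra.norm (ZMod p) z))
  rw [map_intCast, map_pow, hnorm, ZMod.card, ← pow_mul] at h3
  rw [h3]
  congr 1
  have h4 : p ^ 2 = 2 * ((2 * k + 2) * k) + 1 := by
    rw [hk]
    ring
  have h5 : p / 2 = k := by omega
  have h6 : p ^ 2 / 2 = (2 * k + 2) * k := by omega
  rw [h5, h6, hk]

end Pool.Agent.SU
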