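import Pool.Agent.helper40.SU.SpecA

/-!
# Row su:QRT (the character sum of the quartic form)
-/

set_option autoImplicit false

open Finset

namespace Pool.Agent.SU

theorem QRT_range (p : ℕ) [NeZero p] (g : ZMod p → ℤ) :
    ∑ x ∈ range p, g ((x : ℕ) : ZMod p) = ∑ x : ZMod p, g x := by
  refine Finset.sum_bij' (fun x _ => ((x : ℕ) : ZMod p)) (fun x _ => x.val) ?_ ?_ ?_ ?_ ?_
  · intro x _
    exact mem_univ _
  · intro x _
    exact mem_range.2 (ZMod.val_lt x)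
  · intro x hx
    exact ZMod.val_cast_of_lt (mem_range.1 hx)
  · intro x _
    exact ZMod.natCast_zmod_val x
  · intro x _
    rfl

section
variable {F : Type} [Field F] [Fintype F] [DecidableEq F]

theorem QRT_sqsum (hF : ringChar F ≠ 2) (h : F → ℤ) :
    ∑ v : F, h (v ^ 2) = ∑ x : F, (1 + quadraticChar F x) * h x := by
  have h1 : ∑ v : F, h (v ^ 2) = ∑ x : F, ∑ v ∈ univ.filter (fun v : F => v ^ 2 = x), h (v ^ 2) :=
    (Finset.sum_fiberwise univ (fun v : F => v ^ 2) (fun v => h (v ^ 2))).symm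
  rw [h1]
  refine Finset.sum_congr rfl fun x _ => ?_
  have h2 : ∑ v ∈ univ.filter (fun v : F => v ^ 2 = x), h (v ^ 2) =
      ∑ _v ∈ univ.filter (fun v : F => v ^ 2 = x), h x := by
    refine Finset.sum_congr rfl fun v hv => ?_
    rw [(mem_filter.1 hv).2]
  rw [h2, Finset.sum_const, nsmul_eq_mul]
  have h3 := quadraticChar_card_sqrts hF x
  have h4 : ({x_1 : F | x_1 ^ 2 = x}.toFinset) = univ.filter (fun v : F => v ^ 2 = x) := by
    ext v
    simp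
  rw [h4] at h3
  rw [h3]
  ring

/-- the sum over all `(x, y)` -/
theorem QRT_field (hQSM : QSM_stmt) (hF : ringChar F ≠ 2) (m : F) (h1680 : (1680 : F) ≠ 0)
    (hm : m ^ 2 + 1 ≠ 0) :
    ∑ x : F, ∑ y : F, quadraticChar F ((m ^ 2 + 1) * x ^ 4 + (y * (m ^ 2 * x + 420 * y)) ^ 2) =
      ((Fintype.card F : ℤ) - 1) * S3 F (-(2 * m ^ 4)) (m ^ 8 + 1680 ^ 2 * (m ^ 2 + 1)) := by
  have h420 : (420 : F) ≠ 0 := by
    intro h
    apply h1680
    have h1 : (1680 : F) = 4 * 420 := by norm_num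
    rw [h1, h, mul_zero]
  have h840 : (840 : F) ≠ 0 := by
    intro h
    apply h1680
    have h1 : (1680 : F) = 2 * 840 := by norm_num
    rw [h1, h, mul_zero]
  have h4 : (4 : F) ≠ 0 := by
    intro h
    apply h1680
    have h1 : (1680 : F) = 4 * 420 := by norm_num
    rw [h1, h, zero_mul]
  -- `x = 0`
  have hx0 : ∑ y : F, quadraticChar F ((m ^ 2 + 1) * (0 : F) ^ 4 + (y * (m ^ 2 * 0 + 420 * y)) ^ 2) =
      (Fintype.card F : ℤ) - 1 := by
    have h1 : ∀ y : F, quadraticChar F ((m ^ 2 + 1) * (0 : F) ^ 4 + (y * (m ^ 2 * 0 + 420 * y)) ^ 2) =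
        1 - (if y = 0 then 1 else 0) := by
      intro y
      have h2 : (m ^ 2 + 1) * (0 : F) ^ 4 + (y * (m ^ 2 * 0 + 420 * y)) ^ 2 = (420 * y ^ 2) ^ 2 := by
        ring
      rw [h2]
      by_cases hy : y = 0
      · rw [if_pos hy, hy]
        have h3 : ((420 : F) * 0 ^ 2) ^ 2 = 0 := by ring
        rw [h3, quadraticChar_zero]
        ring
      · rw [if_neg hy, quadraticChar_sq_one' (mul_ne_zero h420 (pow_ne_zero 2 hy))]
        ring
    rw [Finset.sum_congr rfl fun y _ => h1 y, Finset.sum_sub_distrib, Finset.sum_ite_eq',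
      if_pos (mem_univ _)]
    simp
  -- `x ≠ 0`
  set T : ℤ := ∑ t : F, quadraticChar F ((m ^ 2 + 1) + (t * (m ^ 2 + 420 * t)) ^ 2) with hT
  have hx1 : ∀ x : F, x ≠ 0 →
      ∑ y : F, quadraticChar F ((m ^ 2 + 1) * x ^ 4 + (y * (m ^ 2 * x + 420 * y)) ^ 2) = T := by
    intro x hx
    rw [hT, ← Equiv.sum_comp (Equiv.mulLeft₀ x hx)
      (fun y => quadraticChar F ((m ^ 2 + 1) * x ^ 4 + (y * (m ^ 2 * x + 420 * y)) ^ 2))]
    refine Finset.sum_congr rfl fun t _ => ?_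
    show quadraticChar F ((m ^ 2 + 1) * x ^ 4 + ((x * t) * (m ^ 2 * x + 420 * (x * t))) ^ 2) = _
    have h1 : (m ^ 2 + 1) * x ^ 4 + ((x * t) * (m ^ 2 * x + 420 * (x * t))) ^ 2 =
        (x ^ 2) ^ 2 * ((m ^ 2 + 1) + (t * (m ^ 2 + 420 * t)) ^ 2) := by ring
    rw [h1, map_mul, quadraticChar_sq_one' (pow_ne_zero 2 hx), one_mul]
  have hsum : ∑ x : F, ∑ y : F, quadraticChar F ((m ^ 2 + 1) * x ^ 4 + (y * (m ^ 2 * x + 420 * y)) ^ 2) =
      ((Fintype.card F : ℤ) - 1) * (1 + T) := by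
    rw [← Finset.add_sum_erase univ _ (mem_univ (0 : F)), hx0]
    have h1 : ∑ x ∈ univ.erase (0 : F),
        ∑ y : F, quadraticChar F ((m ^ 2 + 1) * x ^ 4 + (y * (m ^ 2 * x + 420 * y)) ^ 2) =
        ∑ _x ∈ univ.erase (0 : F), T :=
      Finset.sum_congr rfl fun x hx => hx1 x (Finset.mem_erase.1 hx).1
    rw [h1, Finset.sum_const, Finset.card_erase_of_mem (mem_univ _), Finset.card_univ, nsmul_eq_mul,
      Nat.cast_sub (Fintype.card_pos), Nat.cast_one]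
    ring
  -- the substitution `v = m² + 840 t`
  have hTv : T = ∑ v : F, quadraticChar F ((v ^ 2) ^ 2 + -(2 * m ^ 4) * v ^ 2 +
      (m ^ 8 + 1680 ^ 2 * (m ^ 2 + 1))) := by
    rw [← Equiv.sum_comp ((Equiv.mulLeft₀ (840 : F) h840).trans (Equiv.addLeft (m ^ 2)))
      (fun v => quadraticChar F ((v ^ 2) ^ 2 + -(2 * m ^ 4) * v ^ 2 +
      (m ^ 8 + 1680 ^ 2 * (m ^ 2 + 1)))), hT]
    refine Finset.sum_congr rfl fun t _ => ?_
    show _ = quadraticChar F (((m ^ 2 + 840 * t) ^ 2) ^ 2 + -(2 * m ^ 4) * (m ^ 2 + 840 * t) ^ 2 +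
      (m ^ 8 + 1680 ^ 2 * (m ^ 2 + 1)))
    have h1 : ((m ^ 2 + 840 * t) ^ 2) ^ 2 + -(2 * m ^ 4) * (m ^ 2 + 840 * t) ^ 2 +
        (m ^ 8 + 1680 ^ 2 * (m ^ 2 + 1)) =
        1680 ^ 2 * ((m ^ 2 + 1) + (t * (m ^ 2 + 420 * t)) ^ 2) := by ring
    rw [h1, map_mul, quadraticChar_sq_one' h1680, one_mul]
  have hTx : T = ∑ x : F, (1 + quadraticChar F x) * quadraticChar F (x ^ 2 + -(2 * m ^ 4) * x +
      (m ^ 8 + 1680 ^ 2 * (m ^ 2 + 1))) := by
    rw [hTv]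
    exact QRT_sqsum hF (fun x => quadraticChar F (x ^ 2 + -(2 * m ^ 4) * x +
      (m ^ 8 + 1680 ^ 2 * (m ^ 2 + 1))))
  have hq : ∑ x : F, quadraticChar F (x ^ 2 + -(2 * m ^ 4) * x +
      (m ^ 8 + 1680 ^ 2 * (m ^ 2 + 1))) = -1 := by
    have h1 := (hQSM F hF 1 (-(2 * m ^ 4)) (m ^ 8 + 1680 ^ 2 * (m ^ 2 + 1)) one_ne_zero).1 (by
      have h2 : (-(2 * m ^ 4)) ^ 2 - 4 * 1 * (m ^ 8 + 1680 ^ 2 * (m ^ 2 + 1)) =
          -(4 * 1680 ^ 2 * (m ^ 2 + 1)) := by ring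
      rw [h2]
      exact neg_ne_zero.2 (mul_ne_zero (mul_ne_zero h4 (pow_ne_zero 2 h1680)) hm))
    rw [map_one] at h1
    rw [← h1]
    refine Finset.sum_congr rfl fun x _ => ?_
    rw [one_mul]
  rw [hsum, hTx]
  have h5 : ∑ x : F, (1 + quadraticChar F x) * quadraticChar F (x ^ 2 + -(2 * m ^ 4) * x +
      (m ^ 8 + 1680 ^ 2 * (m ^ 2 + 1))) = -1 +
      S3 F (-(2 * m ^ 4)) (m ^ 8 + 1680 ^ 2 * (m ^ 2 + 1)) := by
    unfold S3
    rw [← hq, ← Finset.sum_add_distrib]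
    refine Finset.sum_congr rfl fun x _ => ?_
    rw [map_mul]
    ring
  rw [h5]
  ring

end

theorem QRT (hQSM : QSM_stmt) (hHAS : HAS_stmt) : QRT_stmt := by
  intro p m hp h7 hdvd
  have hfact : Fact p.Prime := ⟨hp⟩
  have hp2 : p ≠ 2 := by omega
  have hF : ringChar (ZMod p) ≠ 2 := by
    rw [ZMod.ringChar_zmod_n]
    exact hp2
  have hnd : ∀ n : ℕ, ¬ p ∣ n → ((n : ℕ) : ZMod p) ≠ 0 := by
    intro n hn h
    exact hn ((ZMod.natCast_eq_zero_iff n p).1 h)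
  have h1680 : (1680 : ZMod p) ≠ 0 := by
    have h1 := hnd 1680 (by
      intro h
      have h2 : (1680 : ℕ) = 2 ^ 4 * (3 * (5 * 7)) := by norm_num
      rw [h2, hp.dvd_mul, hp.dvd_mul, hp.dvd_mul] at h
      rcases h with h | h | h | h
      · have := Nat.le_of_dvd (by norm_num) (hp.dvd_of_dvd_pow h)
        omega
      · have := Nat.le_of_dvd (by norm_num) h
        omega
      · have := Nat.le_of_dvd (by norm_num) h
        omega
      · have := Nat.le_of_dvd (by norm_num) h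
        omega)
    exact_mod_cast h1
  have hm : ((m : ZMod p)) ^ 2 + 1 ≠ 0 := by
    have h1 := hnd (m ^ 2 + 1) (fun h => hdvd (h.mul_right _))
    exact_mod_cast h1
  have hc : ((m : ZMod p)) ^ 8 + 1680 ^ 2 * ((m : ZMod p) ^ 2 + 1) ≠ 0 := by
    have h1 := hnd (cf m) (fun h => hdvd (h.mul_left _))
    unfold cf at h1
    exact_mod_cast h1
  have hdisc : (-(2 * (m : ZMod p) ^ 4)) ^ 2 - 4 * ((m : ZMod p) ^ 8 +
      1680 ^ 2 * ((m : ZMod p) ^ 2 + 1)) ≠ 0 := by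
    have h4 : (4 : ZMod p) ≠ 0 := by
      intro h
      apply h1680
      have h1 : (1680 : ZMod p) = 4 * 420 := by norm_num
      rw [h1, h, zero_mul]
    have h2 : (-(2 * (m : ZMod p) ^ 4)) ^ 2 - 4 * ((m : ZMod p) ^ 8 +
        1680 ^ 2 * ((m : ZMod p) ^ 2 + 1)) = -(4 * 1680 ^ 2 * ((m : ZMod p) ^ 2 + 1)) := by ring
    rw [h2]
    exact neg_ne_zero.2 (mul_ne_zero (mul_ne_zero h4 (pow_ne_zero 2 h1680)) hm)
  have hsum : (∑ x ∈ range p, ∑ y ∈ range p, jacobiSym (Df m x y) p : ℤ) =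
      ((p : ℤ) - 1) * S3 (ZMod p) (-(2 * (m : ZMod p) ^ 4))
        ((m : ZMod p) ^ 8 + 1680 ^ 2 * ((m : ZMod p) ^ 2 + 1)) := by
    have h1 : ∀ x y : ℕ, jacobiSym (Df m x y) p = quadraticChar (ZMod p)
        (((m : ZMod p) ^ 2 + 1) * (x : ZMod p) ^ 4 +
          ((y : ZMod p) * ((m : ZMod p) ^ 2 * (x : ZMod p) + 420 * (y : ZMod p))) ^ 2) := by
      intro x y
      rw [← jacobiSym.legendreSym.to_jacobiSym]
      unfold legendreSym
      congr 1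
      unfold Df
      push_cast
      ring
    have h2 : ∑ x ∈ range p, ∑ y ∈ range p, jacobiSym (Df m x y) p =
        ∑ x ∈ range p, ∑ y : ZMod p, quadraticChar (ZMod p)
        (((m : ZMod p) ^ 2 + 1) * (x : ZMod p) ^ 4 +
          (y * ((m : ZMod p) ^ 2 * (x : ZMod p) + 420 * y)) ^ 2) := by
      refine Finset.sum_congr rfl fun x _ => ?_
      rw [← QRT_range p (fun y => quadraticChar (ZMod p)
        (((m : ZMod p) ^ 2 + 1) * (x : ZMod p) ^ 4 +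
          (y * ((m : ZMod p) ^ 2 * (x : ZMod p) + 420 * y)) ^ 2))]
      exact Finset.sum_congr rfl fun y _ => h1 x y
    rw [h2, QRT_range p (fun x => ∑ y : ZMod p, quadraticChar (ZMod p)
        (((m : ZMod p) ^ 2 + 1) * x ^ 4 + (y * ((m : ZMod p) ^ 2 * x + 420 * y)) ^ 2)),
      QRT_field hQSM hF (m : ZMod p) h1680 hm, ZMod.card]
  rw [hsum]
  have hH := hHAS p hp2 _ _ hc hdisc
  have hp1 : (1 : ℝ) ≤ p := by exact_mod_cast hp.one_lt.le
  push_cast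
  rw [abs_mul, abs_of_nonneg (by linarith : (0 : ℝ) ≤ (p : ℝ) - 1)]
  calc ((p : ℝ) - 1) * |((S3 (ZMod p) (-(2 * (m : ZMod p) ^ 4))
        ((m : ZMod p) ^ 8 + 1680 ^ 2 * ((m : ZMod p) ^ 2 + 1)) : ℤ) : ℝ)|
      ≤ (p : ℝ) * (2 * √(p : ℝ)) :=
        mul_le_mul (by linarith) hH (abs_nonneg _) (by linarith)
    _ = 2 * p * √(p : ℝ) := by ring

end Pool.Agent.SU
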